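import Pool.Agent.H92.EQ.TK

/-!
Row KJ (the cutoff) of the board for MP_75a732_an.
-/

namespace Pool.Agent.H43.EQ

open scoped BigOperators ComplexConjugate ContDiff ComplexOrder
open MeasureTheory Pool.Agent.H92.EQ

noncomputable section

theorem KJ_evhom {N m : ℕ} {P : MvPolynomial (Fin N) ℂ} (hP : P.IsHomogeneous m) (l : ℂ)
    (z : Fin N → ℂ) :
    MvPolynomial.eval (l • z) P = l ^ m * MvPolynomial.eval z P := by
  rw [MvPolynomial.eval_eq, MvPolynomial.eval_eq, Finset.mul_sum]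
  refine Finset.sum_congr rfl fun d hd => ?_
  have h1 : d.degree = m := by
    by_contra h
    exact (MvPolynomial.mem_support_iff.1 hd) (hP.coeff_eq_zero h)
  have h2 : ∏ i ∈ d.support, (l • z) i ^ d i = l ^ m * ∏ i ∈ d.support, z i ^ d i := by
    simp only [Pi.smul_apply, smul_eq_mul, mul_pow]
    rw [Finset.prod_mul_distrib, Finset.prod_pow_eq_pow_sum]
    rw [← h1]; rfl
  rw [h2]; ring

theorem KJ_nsq_smul {N : ℕ} (l : ℂ) (z : Fin N → ℂ) : nsq (l • z) = ‖l‖ ^ 2 * nsq z := by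
  unfold nsq
  rw [Finset.mul_sum]
  refine Finset.sum_congr rfl fun i _ => ?_
  rw [Pi.smul_apply, smul_eq_mul, norm_mul, mul_pow]

theorem KJ_nsq_nonneg {N : ℕ} (z : Fin N → ℂ) : 0 ≤ nsq z :=
  Finset.sum_nonneg fun i _ => by positivity

theorem KJ_nsq_pos {N : ℕ} {z : Fin N → ℂ} (hz : z ≠ 0) : 0 < nsq z := by
  obtain ⟨i, hi⟩ : ∃ i, z i ≠ 0 := by
    by_contra h
    push Not at h
    exact hz (funext h)
  unfold nsq
  exact Finset.sum_pos' (fun i _ => by positivity) ⟨i, Finset.mem_univ _, by positivity⟩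

theorem KJ_nrm_smul {N : ℕ} (l : ℂ) (z : Fin N → ℂ) : nrm (l • z) = ‖l‖ * nrm z := by
  unfold nrm
  rw [KJ_nsq_smul, Real.sqrt_mul (by positivity), Real.sqrt_sq (norm_nonneg _)]

theorem KJ_nrm_pos {N : ℕ} {z : Fin N → ℂ} (hz : z ≠ 0) : 0 < nrm z :=
  Real.sqrt_pos.2 (KJ_nsq_pos hz)

theorem KJ_nrm_nonneg {N : ℕ} (z : Fin N → ℂ) : 0 ≤ nrm z := Real.sqrt_nonneg _

theorem KJ_nrm_sq {N : ℕ} (z : Fin N → ℂ) : nrm z ^ 2 = nsq z :=
  Real.sq_sqrt (KJ_nsq_nonneg z)

theorem KJ_nsq_contDiff {N : ℕ} : ContDiff ℝ ∞ (nsq : (Fin N → ℂ) → ℝ) := by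
  unfold nsq
  refine ContDiff.sum fun i _ => ?_
  exact ContDiff.norm_sq ℝ (contDiff_apply ℝ ℂ i)

theorem KJ_nrm_cont {N : ℕ} : Continuous (nrm : (Fin N → ℂ) → ℝ) := by
  unfold nrm
  exact Real.continuous_sqrt.comp KJ_nsq_contDiff.continuous

theorem KJ_ev_cont {N : ℕ} (G : Fin N → MvPolynomial (Fin N) ℂ) : Continuous (ev G) := by
  unfold ev
  exact continuous_pi fun i => MvPolynomial.continuous_eval _

theorem KJ_ev_hom {N D : ℕ} {G : Fin N → MvPolynomial (Fin N) ℂ} (hG : IsH D G) (l : ℂ)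
    (z : Fin N → ℂ) : ev G (l • z) = l ^ D • ev G z := by
  funext i
  show MvPolynomial.eval (l • z) (G i) = l ^ D * MvPolynomial.eval z (G i)
  exact KJ_evhom (hG.hom i) l z

theorem KJ_jac_hom {N D : ℕ} {G : Fin N → MvPolynomial (Fin N) ℂ} (hG : IsH D G) (l : ℂ)
    (z : Fin N → ℂ) : jac G (l • z) = l ^ (D - 1) • jac G z := by
  ext i a
  show MvPolynomial.eval (l • z) (MvPolynomial.pderiv a (G i)) =
    l ^ (D - 1) * MvPolynomial.eval z (MvPolynomial.pderiv a (G i))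
  exact KJ_evhom (hG.hom i).pderiv l z

theorem KJ_ev_ne {N D : ℕ} {G : Fin N → MvPolynomial (Fin N) ℂ} (hG : IsH D G) {z : Fin N → ℂ}
    (hz : z ≠ 0) : ev G z ≠ 0 := fun h => hz (hG.nd z h)

/-- Bound by compactness. -/
theorem KJ_bd (h6 : T_L6) {N D m k : ℕ} {G : Fin N → MvPolynomial (Fin N) ℂ} (hG : IsH D G)
    {P : MvPolynomial (Fin N) ℂ} (hP : P.IsHomogeneous m) (hmk : m + k = D) :
    ∃ B : ℝ, 0 < B ∧ ∀ y, y ≠ 0 → ‖MvPolynomial.eval y P‖ * nrm y ^ k ≤ B * nrm (ev G y) := by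
  obtain ⟨B, hB, hb⟩ := (h6 N).1
    (fun y => ‖MvPolynomial.eval y P‖ * nrm y ^ k / nrm (ev G y)) (by
      refine ContinuousOn.div ?_ ?_ ?_
      · exact (((MvPolynomial.continuous_eval P).norm).mul (KJ_nrm_cont.pow k)).continuousOn
      · exact (KJ_nrm_cont.comp (KJ_ev_cont G)).continuousOn
      · intro y hy
        exact (KJ_nrm_pos (KJ_ev_ne hG hy)).ne') (by
      intro r z hr hz
      have h1 : ‖(r : ℂ)‖ = r := by rw [Complex.norm_real, Real.norm_of_nonneg hr.le]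
      show ‖MvPolynomial.eval ((r : ℂ) • z) P‖ * nrm ((r : ℂ) • z) ^ k /
        nrm (ev G ((r : ℂ) • z)) = _
      rw [KJ_evhom hP, KJ_nrm_smul, KJ_ev_hom hG, KJ_nrm_smul, norm_mul, norm_pow, norm_pow, h1,
        mul_pow]
      have h2 := KJ_nrm_pos (KJ_ev_ne hG hz)
      have h3 : r ^ D = r ^ m * r ^ k := by rw [← hmk, pow_add]
      rw [h3]
      field_simp)
  refine ⟨B, hB, fun y hy => ?_⟩
  have h := hb y hy
  rw [abs_of_nonneg (by have := KJ_nrm_nonneg y; have := KJ_nrm_nonneg (ev G y); positivity),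
    div_le_iff₀ (KJ_nrm_pos (KJ_ev_ne hG hy))] at h
  exact h

/-- Chain rule. -/
theorem KJ_chain {N : ℕ} (g : Fin N → MvPolynomial (Fin N) ℂ) (a : Fin N)
    (p : MvPolynomial (Fin N) ℂ) :
    MvPolynomial.pderiv a (MvPolynomial.bind₁ g p) =
      ∑ j, MvPolynomial.bind₁ g (MvPolynomial.pderiv j p) * MvPolynomial.pderiv a (g j) := by
  induction p using MvPolynomial.induction_on with
  | C r => simp
  | add p q hp hq =>
    simp only [map_add, hp, hq, add_mul, Finset.sum_add_distrib]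
  | mul_X p k hp =>
    rw [map_mul, MvPolynomial.bind₁_X_right, Derivation.leibniz, hp]
    have h1 : ∀ j, MvPolynomial.bind₁ g (MvPolynomial.pderiv j (p * MvPolynomial.X k)) *
        MvPolynomial.pderiv a (g j) =
        (if k = j then MvPolynomial.bind₁ g p * MvPolynomial.pderiv a (g j) else 0) +
        g k * (MvPolynomial.bind₁ g (MvPolynomial.pderiv j p) * MvPolynomial.pderiv a (g j)) := by
      intro j
      rw [Derivation.leibniz, map_add, smul_eq_mul, smul_eq_mul, map_mul, map_mul,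
        MvPolynomial.bind₁_X_right, MvPolynomial.pderiv_X, Pi.single_apply]
      split_ifs with h
      · subst h
        simp only [map_one, mul_one]
        ring
      · simp only [map_zero, mul_zero, zero_add]
        ring
    simp only [h1]
    rw [Finset.sum_add_distrib, Finset.sum_ite_eq, if_pos (Finset.mem_univ _), ← Finset.mul_sum]
    simp only [smul_eq_mul]

theorem KJ_eval_bind {N : ℕ} (g : Fin N → MvPolynomial (Fin N) ℂ) (p : MvPolynomial (Fin N) ℂ)
    (z : Fin N → ℂ) :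
    MvPolynomial.eval z (MvPolynomial.bind₁ g p) = MvPolynomial.eval (ev g z) p := by
  induction p using MvPolynomial.induction_on with
  | C r => simp
  | add p q hp hq => simp only [map_add, hp, hq]
  | mul_X p k hp =>
    rw [map_mul, map_mul, map_mul, hp, MvPolynomial.bind₁_X_right, MvPolynomial.eval_X]
    rfl

theorem KJ_ev_succ {N : ℕ} (F : Fin N → MvPolynomial (Fin N) ℂ) (n : ℕ) (z : Fin N → ℂ) :
    ev (iter F (n + 1)) z = ev F (ev (iter F n) z) := by
  funext i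
  exact KJ_eval_bind _ _ _

theorem KJ_ev_zero {N : ℕ} (F : Fin N → MvPolynomial (Fin N) ℂ) (z : Fin N → ℂ) :
    ev (iter F 0) z = z := by
  funext i
  exact MvPolynomial.eval_X i

theorem KJ_jac_succ {N : ℕ} (F : Fin N → MvPolynomial (Fin N) ℂ) (n : ℕ) (z : Fin N → ℂ) :
    jac (iter F (n + 1)) z = jac F (ev (iter F n) z) * jac (iter F n) z := by
  ext i a
  rw [Matrix.mul_apply]
  show MvPolynomial.eval z (MvPolynomial.pderiv a (MvPolynomial.bind₁ (iter F n) (F i))) = _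
  rw [KJ_chain, map_sum]
  refine Finset.sum_congr rfl fun j _ => ?_
  rw [map_mul, KJ_eval_bind]
  rfl

theorem KJ_jac_zero {N : ℕ} (F : Fin N → MvPolynomial (Fin N) ℂ) (z : Fin N → ℂ) :
    jac (iter F 0) z = 1 := by
  ext i a
  show MvPolynomial.eval z (MvPolynomial.pderiv a (MvPolynomial.X i)) = _
  rw [MvPolynomial.pderiv_X, Pi.single_apply, Matrix.one_apply]
  split_ifs <;> simp_all

theorem KJ_it_ne {N D : ℕ} {F : Fin N → MvPolynomial (Fin N) ℂ} (hF : IsH D F) (n : ℕ)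
    {z : Fin N → ℂ} (hz : z ≠ 0) : ev (iter F n) z ≠ 0 := by
  induction n with
  | zero => rw [KJ_ev_zero]; exact hz
  | succ n ih => rw [KJ_ev_succ]; exact KJ_ev_ne hF ih

/-- The bounds of the first and second derivatives of `F`. -/
theorem KJ_F (h6 : T_L6) {N d : ℕ} {F : Fin N → MvPolynomial (Fin N) ℂ} (hd : 2 ≤ d)
    (hF : IsH d F) : ∃ B : ℝ, 1 ≤ B ∧
      (∀ y, y ≠ 0 → ∀ i a, ‖jac F y i a‖ * nrm y ≤ B * nrm (ev F y)) ∧
      (∀ y, y ≠ 0 → ∀ i a b,
        ‖MvPolynomial.eval y (MvPolynomial.pderiv b (MvPolynomial.pderiv a (F i)))‖ * nrm y ^ 2 ≤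
          B * nrm (ev F y)) := by
  have h1 : ∀ i a : Fin N, ∃ B : ℝ, 0 < B ∧ ∀ y, y ≠ 0 →
      ‖MvPolynomial.eval y (MvPolynomial.pderiv a (F i))‖ * nrm y ^ 1 ≤ B * nrm (ev F y) :=
    fun i a => KJ_bd h6 hF (hF.hom i).pderiv (by omega)
  have h2 : ∀ i a b : Fin N, ∃ B : ℝ, 0 < B ∧ ∀ y, y ≠ 0 →
      ‖MvPolynomial.eval y (MvPolynomial.pderiv b (MvPolynomial.pderiv a (F i)))‖ * nrm y ^ 2 ≤
        B * nrm (ev F y) :=
    fun i a b => KJ_bd h6 hF (hF.hom i).pderiv.pderiv (by omega)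
  choose B1 hB1 hb1 using h1
  choose B2 hB2 hb2 using h2
  have hle1 : ∀ i a, B1 i a ≤ ∑ i, ∑ a, B1 i a := fun i a =>
    (Finset.single_le_sum (f := fun a => B1 i a) (fun a _ => (hB1 i a).le)
      (Finset.mem_univ a)).trans
      (Finset.single_le_sum (f := fun i => ∑ a, B1 i a)
        (fun i _ => Finset.sum_nonneg fun a _ => (hB1 i a).le) (Finset.mem_univ i))
  have hle2 : ∀ i a b, B2 i a b ≤ ∑ i, ∑ a, ∑ b, B2 i a b := fun i a b =>
    ((Finset.single_le_sum (f := fun b => B2 i a b) (fun b _ => (hB2 i a b).le)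
      (Finset.mem_univ b)).trans
      (Finset.single_le_sum (f := fun a => ∑ b, B2 i a b)
        (fun a _ => Finset.sum_nonneg fun b _ => (hB2 i a b).le) (Finset.mem_univ a))).trans
      (Finset.single_le_sum (f := fun i => ∑ a, ∑ b, B2 i a b)
        (fun i _ => Finset.sum_nonneg fun a _ => Finset.sum_nonneg fun b _ => (hB2 i a b).le)
        (Finset.mem_univ i))
  have hn1 : 0 ≤ ∑ i, ∑ a, B1 i a :=
    Finset.sum_nonneg fun i _ => Finset.sum_nonneg fun a _ => (hB1 i a).le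
  have hn2 : 0 ≤ ∑ i, ∑ a, ∑ b, B2 i a b :=
    Finset.sum_nonneg fun i _ => Finset.sum_nonneg fun a _ =>
      Finset.sum_nonneg fun b _ => (hB2 i a b).le
  refine ⟨1 + ∑ i, ∑ a, B1 i a + ∑ i, ∑ a, ∑ b, B2 i a b, by linarith, ?_, ?_⟩
  · intro y hy i a
    have h := hb1 i a y hy
    rw [pow_one] at h
    refine h.trans (mul_le_mul_of_nonneg_right ?_ (KJ_nrm_nonneg _))
    have := hle1 i a
    linarith
  · intro y hy i a b
    refine (hb2 i a b y hy).trans (mul_le_mul_of_nonneg_right ?_ (KJ_nrm_nonneg _))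
    have := hle2 i a b
    linarith

/-- The derivatives of the iterates. -/
theorem KJ_it (h6 : T_L6) {N d : ℕ} {F : Fin N → MvPolynomial (Fin N) ℂ} (hN : 0 < N)
    (hd : 2 ≤ d) (hF : IsH d F) : ∃ K : ℝ, 1 ≤ K ∧ ∀ n : ℕ,
      (∀ y, y ≠ 0 → ∀ i a, ‖jac (iter F n) y i a‖ * nrm y ≤ K ^ n * nrm (ev (iter F n) y)) ∧
      (∀ y, y ≠ 0 → ∀ i a b,
        ‖MvPolynomial.eval y (MvPolynomial.pderiv b (MvPolynomial.pderiv a (iter F n i)))‖ *
          nrm y ^ 2 ≤ K ^ (2 * n) * nrm (ev (iter F n) y)) := by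
  obtain ⟨B, hB, h1, h2⟩ := KJ_F h6 hd hF
  have hN1 : (1 : ℝ) ≤ N := by exact_mod_cast hN
  set K : ℝ := ((N : ℝ) ^ 2 + N) * B with hK
  have hNB : (N : ℝ) * B ≤ K := by rw [hK]; nlinarith [sq_nonneg (N : ℝ)]
  have hK1 : 1 ≤ K := by nlinarith
  refine ⟨K, hK1, fun n => ?_⟩
  induction n with
  | zero =>
    refine ⟨?_, ?_⟩
    · intro y hy i a
      rw [KJ_jac_zero, KJ_ev_zero, pow_zero]
      refine mul_le_mul_of_nonneg_right ?_ (KJ_nrm_nonneg _)
      rw [Matrix.one_apply]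
      split_ifs <;> simp
    · intro y hy i a b
      have h0 : MvPolynomial.pderiv b (MvPolynomial.pderiv a (iter F 0 i)) = 0 := by
        show MvPolynomial.pderiv b (MvPolynomial.pderiv a (MvPolynomial.X i)) = 0
        rw [MvPolynomial.pderiv_X, Pi.single_apply]
        split_ifs <;> simp
      rw [h0, map_zero, norm_zero, zero_mul]
      have := KJ_nrm_nonneg (ev (iter F 0) y)
      positivity
  | succ n ih =>
    obtain ⟨ih1, ih2⟩ := ih
    have hKn : 0 ≤ K ^ n := by positivity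
    have hK2n : 0 ≤ K ^ (2 * n) := by positivity
    refine ⟨?_, ?_⟩
    · intro y hy i a
      have hy' := KJ_it_ne hF n hy
      rw [KJ_jac_succ, KJ_ev_succ, Matrix.mul_apply]
      set y' := ev (iter F n) y with hy'def
      calc ‖∑ j, jac F y' i j * jac (iter F n) y j a‖ * nrm y
          ≤ (∑ j, ‖jac F y' i j * jac (iter F n) y j a‖) * nrm y :=
            mul_le_mul_of_nonneg_right (norm_sum_le _ _) (KJ_nrm_nonneg _)
        _ = ∑ j, ‖jac F y' i j‖ * (‖jac (iter F n) y j a‖ * nrm y) := by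
            rw [Finset.sum_mul]
            exact Finset.sum_congr rfl fun j _ => by rw [norm_mul, mul_assoc]
        _ ≤ ∑ j : Fin N, K ^ n * (B * nrm (ev F y')) := by
            refine Finset.sum_le_sum fun j _ => ?_
            calc ‖jac F y' i j‖ * (‖jac (iter F n) y j a‖ * nrm y)
                ≤ ‖jac F y' i j‖ * (K ^ n * nrm y') :=
                  mul_le_mul_of_nonneg_left (ih1 y hy j a) (norm_nonneg _)
              _ = K ^ n * (‖jac F y' i j‖ * nrm y') := by ring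
              _ ≤ K ^ n * (B * nrm (ev F y')) :=
                  mul_le_mul_of_nonneg_left (h1 y' hy' i j) hKn
        _ = (N * B) * (K ^ n * nrm (ev F y')) := by
            rw [Finset.sum_const, Finset.card_univ, Fintype.card_fin, nsmul_eq_mul]
            ring
        _ ≤ K * (K ^ n * nrm (ev F y')) :=
            mul_le_mul_of_nonneg_right hNB (mul_nonneg hKn (KJ_nrm_nonneg _))
        _ = K ^ (n + 1) * nrm (ev F y') := by rw [pow_succ]; ring
    · intro y hy i a b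
      have hy' := KJ_it_ne hF n hy
      have hexp : MvPolynomial.eval y (MvPolynomial.pderiv b (MvPolynomial.pderiv a
          (iter F (n + 1) i))) =
          ∑ j, ((∑ k, MvPolynomial.eval (ev (iter F n) y)
              (MvPolynomial.pderiv k (MvPolynomial.pderiv j (F i))) * jac (iter F n) y k b) *
              jac (iter F n) y j a +
            jac F (ev (iter F n) y) i j *
              MvPolynomial.eval y (MvPolynomial.pderiv b (MvPolynomial.pderiv a (iter F n j)))) := by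
        show MvPolynomial.eval y (MvPolynomial.pderiv b (MvPolynomial.pderiv a
          (MvPolynomial.bind₁ (iter F n) (F i)))) = _
        rw [KJ_chain, map_sum, map_sum]
        refine Finset.sum_congr rfl fun j _ => ?_
        rw [Derivation.leibniz, map_add, smul_eq_mul, smul_eq_mul, map_mul, map_mul,
          KJ_eval_bind, KJ_chain, map_sum]
        simp only [map_mul, KJ_eval_bind]
        rw [add_comm]
        congr 1
        rw [mul_comm]
        rfl
      rw [hexp, KJ_ev_succ]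
      set y' := ev (iter F n) y with hy'def
      have hny := KJ_nrm_nonneg y
      have hny' := KJ_nrm_nonneg y'
      have hnF := KJ_nrm_nonneg (ev F y')
      calc _ ≤ (∑ j, ((∑ k, ‖MvPolynomial.eval y'
              (MvPolynomial.pderiv k (MvPolynomial.pderiv j (F i)))‖ * ‖jac (iter F n) y k b‖) *
              ‖jac (iter F n) y j a‖ +
            ‖jac F y' i j‖ *
              ‖MvPolynomial.eval y (MvPolynomial.pderiv b (MvPolynomial.pderiv a
                (iter F n j)))‖)) * nrm y ^ 2 := by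
            refine mul_le_mul_of_nonneg_right ?_ (by positivity)
            refine (norm_sum_le _ _).trans (Finset.sum_le_sum fun j _ => ?_)
            refine (norm_add_le _ _).trans ?_
            rw [norm_mul, norm_mul]
            gcongr
            refine (norm_sum_le _ _).trans (Finset.sum_le_sum fun k _ => ?_)
            rw [norm_mul]
        _ = ∑ j, ((∑ k, ‖MvPolynomial.eval y'
              (MvPolynomial.pderiv k (MvPolynomial.pderiv j (F i)))‖ *
                ((‖jac (iter F n) y k b‖ * nrm y) * (‖jac (iter F n) y j a‖ * nrm y))) +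
            ‖jac F y' i j‖ *
              (‖MvPolynomial.eval y (MvPolynomial.pderiv b (MvPolynomial.pderiv a
                (iter F n j)))‖ * nrm y ^ 2)) := by
            rw [Finset.sum_mul]
            refine Finset.sum_congr rfl fun j _ => ?_
            rw [add_mul, Finset.sum_mul, Finset.sum_mul]
            congr 1
            · exact Finset.sum_congr rfl fun k _ => by ring
            · ring
        _ ≤ ∑ j : Fin N, ((∑ k : Fin N, K ^ (2 * n) * (B * nrm (ev F y'))) +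
            K ^ (2 * n) * (B * nrm (ev F y'))) := by
            refine Finset.sum_le_sum fun j _ => add_le_add ?_ ?_
            · refine Finset.sum_le_sum fun k _ => ?_
              have e1 := ih1 y hy k b
              have e2 := ih1 y hy j a
              have e3 := h2 y' hy' i j k
              calc _ ≤ ‖MvPolynomial.eval y'
                    (MvPolynomial.pderiv k (MvPolynomial.pderiv j (F i)))‖ *
                    ((K ^ n * nrm y') * (K ^ n * nrm y')) := by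
                    gcongr
                _ = K ^ (2 * n) * (‖MvPolynomial.eval y'
                    (MvPolynomial.pderiv k (MvPolynomial.pderiv j (F i)))‖ * nrm y' ^ 2) := by
                    rw [two_mul, pow_add]; ring
                _ ≤ _ := mul_le_mul_of_nonneg_left e3 hK2n
            · have e1 := ih2 y hy j a b
              have e2 := h1 y' hy' i j
              calc _ ≤ ‖jac F y' i j‖ * (K ^ (2 * n) * nrm y') := by gcongr
                _ = K ^ (2 * n) * (‖jac F y' i j‖ * nrm y') := by ring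
                _ ≤ _ := mul_le_mul_of_nonneg_left e2 hK2n
        _ = K * (K ^ (2 * n) * nrm (ev F y')) := by
            simp only [Finset.sum_const, Finset.card_univ, Fintype.card_fin, nsmul_eq_mul, hK]
            ring
        _ ≤ K ^ (2 * (n + 1)) * nrm (ev F y') := by
            have : K * (K ^ (2 * n) * nrm (ev F y')) * 1 ≤
                K * (K ^ (2 * n) * nrm (ev F y')) * K :=
              mul_le_mul_of_nonneg_left hK1 (by positivity)
            calc _ = K * (K ^ (2 * n) * nrm (ev F y')) * 1 := by ring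
              _ ≤ _ := this
              _ = _ := by rw [show 2 * (n + 1) = 2 * n + 2 by ring, pow_add]; ring

/-- `relJ F ^ 2`. -/
def rr {N : ℕ} (F : Fin N → MvPolynomial (Fin N) ℂ) (y : Fin N → ℂ) : ℝ :=
  ‖(jac F y).det‖ ^ 2 * nsq y ^ N / nsq (ev F y) ^ N

theorem KJ_ev_contDiff {N : ℕ} (h2 : T_W2) (F : Fin N → MvPolynomial (Fin N) ℂ) :
    ContDiff ℝ ∞ (ev F) := by
  rw [contDiff_pi]
  intro i
  exact (h2 (Fin N) i (F i) 0).2.2

theorem KJ_det_contDiff {N : ℕ} (h2 : T_W2) (F : Fin N → MvPolynomial (Fin N) ℂ) :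
    ContDiff ℝ ∞ (fun y => (jac F y).det) := by
  simp only [Matrix.det_apply']
  refine ContDiff.sum fun σ _ => ?_
  refine contDiff_const.mul ?_
  refine contDiff_prod fun i _ => ?_
  exact (h2 (Fin N) i (MvPolynomial.pderiv i (F (σ i))) 0).2.2

theorem KJ_rr_hom0 {N d : ℕ} (h2 : T_W2) {F : Fin N → MvPolynomial (Fin N) ℂ} (hd : 1 ≤ d)
    (hF : IsH d F) : Hom0 (rr F) := by
  constructor
  · unfold rr
    refine ContDiffOn.div ?_ ?_ ?_
    · exact (((KJ_det_contDiff h2 F).norm_sq ℝ).mul (KJ_nsq_contDiff.pow N)).contDiffOn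
    · exact ((KJ_nsq_contDiff.comp (KJ_ev_contDiff h2 F)).pow N).contDiffOn
    · intro y hy
      exact pow_ne_zero _ (KJ_nsq_pos (KJ_ev_ne hF hy)).ne'
  · intro l z hl hz
    unfold rr
    rw [KJ_jac_hom hF, KJ_ev_hom hF, KJ_nsq_smul, KJ_nsq_smul, Matrix.det_smul, Fintype.card_fin,
      norm_mul, norm_pow, norm_pow, norm_pow]
    have h1 : (0 : ℝ) < ‖l‖ := norm_pos_iff.2 hl
    have h3 := KJ_nsq_pos (KJ_ev_ne hF hz)
    obtain ⟨e, rfl⟩ : ∃ e, d = e + 1 := ⟨d - 1, by omega⟩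
    rw [Nat.add_sub_cancel, mul_pow, mul_pow, mul_pow]
    have h4 : (‖l‖ ^ (e + 1)) ^ 2 = (‖l‖ ^ e) ^ 2 * ‖l‖ ^ 2 := by ring
    rw [h4, mul_pow]
    have h5 : ((‖l‖ ^ e) ^ N) ^ 2 = ((‖l‖ ^ e) ^ 2) ^ N := by ring
    rw [h5]
    field_simp

theorem KJ_rr_nonneg {N : ℕ} (F : Fin N → MvPolynomial (Fin N) ℂ) (y : Fin N → ℂ) :
    0 ≤ rr F y := by
  unfold rr
  have h1 := KJ_nsq_nonneg y
  have h2 := KJ_nsq_nonneg (ev F y)
  positivity

theorem KJ_two_le : (2 : WithTop ℕ∞) ≤ ∞ :=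
  WithTop.coe_le_coe.2 (le_top : (2 : ℕ∞) ≤ ⊤)

theorem KJ_wd_eq {N : ℕ} {φ : (Fin N → ℂ) → ℝ} (h1 : ContDiffOn ℝ ∞ φ {0}ᶜ) {z : Fin N → ℂ}
    (hz : z ≠ 0) : ContDiffAt ℝ 2 φ z := by
  have h2 : ContDiffAt ℝ ∞ φ z := h1.contDiffAt (isOpen_compl_singleton.mem_nhds hz)
  exact h2.of_le KJ_two_le

theorem KJ_cx_contDiff {N : ℕ} {φ : (Fin N → ℂ) → ℝ} {U : Set (Fin N → ℂ)}
    (h1 : ContDiffOn ℝ ∞ φ U) : ContDiffOn ℝ ∞ (cx φ) U :=
  Complex.ofRealCLM.contDiff.comp_contDiffOn h1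

/-- A function and its derivative are bounded. -/
theorem KJ_Hom0_bd (h6 : T_L6) (hL1 : T_L1) (hL2 : T_L2) (hW6 : T_W6) {N : ℕ}
    {r : (Fin N → ℂ) → ℝ} (hr : Hom0 r) : ∃ B : ℝ, 1 ≤ B ∧ (∀ y, y ≠ 0 → |r y| ≤ B) ∧
      (∀ y, y ≠ 0 → ∀ a, ‖wd a (cx r) y‖ * nrm y ≤ B) := by
  obtain ⟨B1, hB1, hb1⟩ := (h6 N).1 r hr.smooth.continuousOn (fun s z hs hz =>
    hr.hom _ z (by exact_mod_cast hs.ne') hz)
  have h2 : ∀ a : Fin N, ∃ B : ℝ, 0 < B ∧ ∀ z : Fin N → ℂ, z ≠ 0 →
      |‖wd a (cx r) z‖ * nrm z| ≤ B := by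
    intro a
    refine (h6 N).1 (fun z => ‖wd a (cx r) z‖ * nrm z) ?_ ?_
    · refine ContinuousOn.mul ?_ KJ_nrm_cont.continuousOn
      exact ((hW6 (Fin N) a (cx r) {0}ᶜ isOpen_compl_singleton
        (KJ_cx_contDiff hr.smooth)).1.continuousOn).norm
    · intro s z hs hz
      have hs' : (s : ℂ) ≠ 0 := by exact_mod_cast hs.ne'
      have hL : LH 0 r := ((hL1 N 0 0 0 0 r r).2.1).1 hr
      have h3 := ((hL2 N 0 r hL z hz).2.2.2.2 (s : ℂ) hs').1 a
      show ‖wd a (cx r) ((s : ℂ) • z)‖ * nrm ((s : ℂ) • z) = _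
      rw [h3, KJ_nrm_smul, norm_mul, norm_inv, Complex.norm_real, Real.norm_of_nonneg hs.le]
      field_simp
  choose B2 hB2 hb2 using h2
  have hn2 : 0 ≤ ∑ a, B2 a := Finset.sum_nonneg fun a _ => (hB2 a).le
  refine ⟨1 + B1 + ∑ a, B2 a, by linarith, fun y hy => (hb1 y hy).trans (by linarith), ?_⟩
  intro y hy a
  refine ((le_abs_self _).trans (hb2 a y hy)).trans ?_
  have := Finset.single_le_sum (f := B2) (fun a _ => (hB2 a).le) (Finset.mem_univ a)
  linarith

/-- `relJ (iter F n) ^ 2` as a product. -/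
def Rn {N : ℕ} (F : Fin N → MvPolynomial (Fin N) ℂ) : ℕ → (Fin N → ℂ) → ℝ
  | 0 => fun _ => 1
  | (n + 1) => fun x => Rn F n x * rr F (ev (iter F n) x)

theorem KJ_Rn_hom0 {N d : ℕ} (h2 : T_W2) {F : Fin N → MvPolynomial (Fin N) ℂ} (hd : 1 ≤ d)
    (hF : IsH d F) (h12 : T_D12) (n : ℕ) : Hom0 (Rn F n) := by
  induction n with
  | zero => exact ⟨contDiffOn_const, fun _ _ _ _ => rfl⟩
  | succ n ih =>
    have hr := KJ_rr_hom0 h2 hd hF
    refine ⟨?_, ?_⟩
    · refine ih.smooth.mul ?_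
      refine hr.smooth.comp (KJ_ev_contDiff h2 (iter F n)).contDiffOn ?_
      intro y hy
      exact KJ_it_ne hF n hy
    · intro l z hl hz
      show Rn F n (l • z) * rr F (ev (iter F n) (l • z)) = Rn F n z * rr F (ev (iter F n) z)
      rw [ih.hom l z hl hz, KJ_ev_hom (h12 N d F hd hF 0 n).1,
        hr.hom _ _ (pow_ne_zero _ hl) (KJ_it_ne hF n hz)]

theorem KJ_relJ {N d : ℕ} {F : Fin N → MvPolynomial (Fin N) ℂ} (hF : IsH d F) (n : ℕ)
    {x : Fin N → ℂ} (hx : x ≠ 0) : Rn F n x = relJ (iter F n) x ^ 2 := by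
  induction n with
  | zero =>
    show (1 : ℝ) = _
    unfold relJ
    rw [KJ_jac_zero, KJ_ev_zero, Matrix.det_one, norm_one, one_mul,
      div_self (pow_ne_zero _ (KJ_nrm_pos hx).ne'), one_pow]
  | succ n ih =>
    show Rn F n x * rr F (ev (iter F n) x) = _
    rw [ih]
    unfold relJ rr
    rw [KJ_jac_succ, KJ_ev_succ, Matrix.det_mul, norm_mul, ← KJ_nrm_sq, ← KJ_nrm_sq]
    have h1 := KJ_nrm_pos (KJ_it_ne hF n hx)
    have h2 := KJ_nrm_pos (KJ_ev_ne hF (KJ_it_ne hF n hx))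
    field_simp
    ring

/-- The bounds of `Rn`. -/
theorem KJ_Rn_bd (h6 : T_L6) (hL1 : T_L1) (hL2 : T_L2) (hW6 : T_W6) (h2 : T_W2) (hW1 : T_W1)
    (hW3 : T_W3) (h12 : T_D12) {N d : ℕ} {F : Fin N → MvPolynomial (Fin N) ℂ} (hN : 0 < N)
    (hd : 2 ≤ d) (hF : IsH d F) : ∃ K : ℝ, 1 ≤ K ∧ ∀ (n : ℕ) (x : Fin N → ℂ), x ≠ 0 →
      ∀ a, ‖wd a (cx (Rn F n)) x‖ * nrm x ≤ K ^ n := by
  obtain ⟨K0, hK0, hit⟩ := KJ_it h6 hN hd hF
  have hr := KJ_rr_hom0 h2 (by omega) hF
  obtain ⟨B, hB, hb1, hb2⟩ := KJ_Hom0_bd h6 hL1 hL2 hW6 hr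
  have hN1 : (1 : ℝ) ≤ N := by exact_mod_cast hN
  have hRn : ∀ n x, x ≠ 0 → |Rn F n x| ≤ B ^ n := by
    intro n
    induction n with
    | zero => intro x _; show |(1 : ℝ)| ≤ _; simp
    | succ n ih =>
      intro x hx
      show |Rn F n x * rr F (ev (iter F n) x)| ≤ _
      rw [abs_mul, pow_succ]
      exact mul_le_mul (ih x hx) (hb1 _ (KJ_it_ne hF n hx)) (abs_nonneg _) (by positivity)
  refine ⟨B * (1 + N) * K0, ?_, ?_⟩
  · have h1 : 1 ≤ B * (1 + (N : ℝ)) := by nlinarith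
    nlinarith
  intro n
  induction n with
  | zero =>
    intro x hx a
    have h0 : wd a (cx (Rn F 0)) x = 0 := by
      have : cx (Rn F 0) = fun _ => (1 : ℂ) := by
        funext w
        show ((1 : ℝ) : ℂ) = 1
        simp
      rw [this]
      unfold wd
      simp
    rw [h0, norm_zero, zero_mul]
    norm_num
  | succ n ih =>
    intro x hx a
    have hy := KJ_it_ne hF n hx
    set y := ev (iter F n) x with hydef
    have hfun : cx (Rn F (n + 1)) =
        fun w => cx (Rn F n) w * (fun v => cx (rr F) (ev (iter F n) v)) w := by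
      funext w
      show ((Rn F n w * rr F (ev (iter F n) w) : ℝ) : ℂ) = (Rn F n w : ℂ) *
        (rr F (ev (iter F n) w) : ℂ)
      push_cast
      rfl
    have hd1 : DifferentiableAt ℝ (cx (Rn F n)) x :=
      ((KJ_cx_contDiff (KJ_Rn_hom0 h2 (by omega) hF h12 n).smooth).contDiffAt
        (isOpen_compl_singleton.mem_nhds hx)).differentiableAt (by simp)
    have hd2 : DifferentiableAt ℝ (cx (rr F)) y :=
      ((KJ_cx_contDiff hr.smooth).contDiffAt
        (isOpen_compl_singleton.mem_nhds hy)).differentiableAt (by simp)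
    have hd3 : DifferentiableAt ℝ (fun v => cx (rr F) (ev (iter F n) v)) x :=
      DifferentiableAt.comp (g := cx (rr F)) (f := ev (iter F n)) x hd2
        ((KJ_ev_contDiff h2 (iter F n)).differentiable (by simp) x)
    rw [hfun, (hW1 (Fin N) a (cx (Rn F n)) (fun v => cx (rr F) (ev (iter F n) v)) x hd1 hd3).2.2.1,
      (hW3 (Fin N) (Fin N) (iter F n) (cx (rr F)) x a hd2).1]
    have e1 : ‖cx (Rn F n) x‖ ≤ B ^ n := by
      show ‖((Rn F n x : ℝ) : ℂ)‖ ≤ _
      rw [Complex.norm_real]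
      exact hRn n x hx
    have e2 : ‖cx (rr F) y‖ ≤ B := by
      show ‖((rr F y : ℝ) : ℂ)‖ ≤ _
      rw [Complex.norm_real]
      exact hb1 y hy
    have e3 : ‖∑ i, jac (iter F n) x i a * wd i (cx (rr F)) y‖ * nrm x ≤ N * (K0 ^ n * B) := by
      calc _ ≤ (∑ i, ‖jac (iter F n) x i a * wd i (cx (rr F)) y‖) * nrm x :=
            mul_le_mul_of_nonneg_right (norm_sum_le _ _) (KJ_nrm_nonneg _)
        _ = ∑ i, (‖jac (iter F n) x i a‖ * nrm x) * ‖wd i (cx (rr F)) y‖ := by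
            rw [Finset.sum_mul]
            exact Finset.sum_congr rfl fun i _ => by rw [norm_mul]; ring
        _ ≤ ∑ i : Fin N, K0 ^ n * B := by
            refine Finset.sum_le_sum fun i _ => ?_
            calc _ ≤ (K0 ^ n * nrm y) * ‖wd i (cx (rr F)) y‖ :=
                  mul_le_mul_of_nonneg_right ((hit n).1 x hx i a) (norm_nonneg _)
              _ = K0 ^ n * (‖wd i (cx (rr F)) y‖ * nrm y) := by ring
              _ ≤ _ := mul_le_mul_of_nonneg_left (hb2 y hy i) (by positivity)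
        _ = _ := by rw [Finset.sum_const, Finset.card_univ, Fintype.card_fin, nsmul_eq_mul]
    have e4 := ih x hx a
    set K := B * (1 + (N : ℝ)) * K0 with hKdef
    have hBK : B * K0 ≤ K := by rw [hKdef]; nlinarith [mul_nonneg (by linarith : 0 ≤ B) (by linarith : 0 ≤ K0)]
    have hB1K : B * (1 + N) ≤ K := by
      rw [hKdef]
      have : 0 ≤ B * (1 + (N : ℝ)) := by positivity
      nlinarith
    have hBK' : B ^ n * K0 ^ n ≤ K ^ n := by
      rw [← mul_pow]
      exact pow_le_pow_left₀ (by positivity) hBK n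
    calc ‖cx (Rn F n) x * ∑ i, jac (iter F n) x i a * wd i (cx (rr F)) y +
          cx (rr F) y * wd a (cx (Rn F n)) x‖ * nrm x
        ≤ (‖cx (Rn F n) x‖ * ‖∑ i, jac (iter F n) x i a * wd i (cx (rr F)) y‖ +
            ‖cx (rr F) y‖ * ‖wd a (cx (Rn F n)) x‖) * nrm x := by
          refine mul_le_mul_of_nonneg_right ?_ (KJ_nrm_nonneg _)
          refine (norm_add_le _ _).trans ?_
          rw [norm_mul, norm_mul]
      _ = ‖cx (Rn F n) x‖ * (‖∑ i, jac (iter F n) x i a * wd i (cx (rr F)) y‖ * nrm x) +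
            ‖cx (rr F) y‖ * (‖wd a (cx (Rn F n)) x‖ * nrm x) := by ring
      _ ≤ B ^ n * (N * (K0 ^ n * B)) + B * K ^ n := by
          have := KJ_nrm_nonneg x
          gcongr
      _ = (B ^ n * K0 ^ n) * (N * B) + B * K ^ n := by ring
      _ ≤ K ^ n * (N * B) + B * K ^ n := by gcongr
      _ = K ^ n * (B * (1 + N)) := by ring
      _ ≤ K ^ n * K := by gcongr
      _ = K ^ (n + 1) := by rw [pow_succ]

theorem KJ_sT : ∃ C : ℝ, 0 ≤ C ∧ ∀ t, |deriv Real.smoothTransition t| ≤ C := by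
  have hc : Continuous (deriv Real.smoothTransition) :=
    (Real.smoothTransition.contDiff (n := 1)).continuous_deriv le_rfl
  obtain ⟨C, hC⟩ := isCompact_Icc.exists_bound_of_continuousOn (s := Set.Icc (0 : ℝ) 1)
    hc.continuousOn
  refine ⟨max C 0, le_max_right _ _, fun t => ?_⟩
  by_cases ht : t ∈ Set.Icc (0 : ℝ) 1
  · exact (hC t ht).trans (le_max_left _ _)
  · have h0 : deriv Real.smoothTransition t = 0 := by
      rw [Set.mem_Icc, not_and_or, not_le, not_le] at ht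
      rcases ht with h | h
      · have : Real.smoothTransition =ᶠ[nhds t] fun _ => (0 : ℝ) := by
          filter_upwards [Iio_mem_nhds h] with s hs
          exact Real.smoothTransition.zero_of_nonpos (le_of_lt hs)
        rw [this.deriv_eq]
        simp
      · have : Real.smoothTransition =ᶠ[nhds t] fun _ => (1 : ℝ) := by
          filter_upwards [Ioi_mem_nhds h] with s hs
          exact Real.smoothTransition.one_of_one_le (le_of_lt hs)
        rw [this.deriv_eq]
        simp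
    rw [h0, abs_zero]
    exact le_max_right _ _

/-- Row KJ. -/
theorem pf_KJ (h6 : T_L6) (hL1 : T_L1) (hL2 : T_L2) (hW6 : T_W6) (h2 : T_W2) (hW1 : T_W1)
    (hW3 : T_W3) (hW7 : T_W7) (h12 : T_D12) : T_KJ := by
  intro N d F hN hd hF
  obtain ⟨K0, hK0, hit⟩ := KJ_it h6 hN hd hF
  obtain ⟨K4, hK4, hR⟩ := KJ_Rn_bd h6 hL1 hL2 hW6 h2 hW1 hW3 h12 hN hd hF
  obtain ⟨C0, hC0, hc⟩ := KJ_sT
  have hKge : 1 ≤ K4 + C0 + K0 ^ 2 := by nlinarith [sq_nonneg K0]
  set K := K4 + C0 + K0 ^ 2 with hK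
  have hK0K : K0 ≤ K := by rw [hK]; nlinarith
  have hK02K : K0 ^ 2 ≤ K := by rw [hK]; linarith
  have hK4K : K4 ≤ K := by rw [hK]; nlinarith [sq_nonneg K0]
  have hC0K : C0 ≤ K := by rw [hK]; nlinarith [sq_nonneg K0]
  have hne : ∀ x : Fin N → ℂ, nrm x = 1 → x ≠ 0 := by
    intro x hx h
    rw [h] at hx
    have : nrm (0 : Fin N → ℂ) = 0 := by simp [nrm, nsq]
    rw [this] at hx
    norm_num at hx
  refine ⟨K, hKge, fun n ρ hρ hρ1 => ?_⟩
  have hRh := KJ_Rn_hom0 h2 (by omega) hF h12 n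
  set χ : ℝ → ℝ := fun t => Real.smoothTransition ((t / ρ ^ 2 - 1) / 3) with hχ
  have hχs : ContDiff ℝ ∞ χ := by
    rw [hχ]
    refine Real.smoothTransition.contDiff.comp ?_
    fun_prop
  have hχd : ∀ t, deriv χ t = deriv Real.smoothTransition ((t / ρ ^ 2 - 1) / 3) *
      (1 / ρ ^ 2 / 3) := by
    intro t
    have h1 : HasDerivAt (fun t : ℝ => (t / ρ ^ 2 - 1) / 3) (1 / ρ ^ 2 / 3) t :=
      (((hasDerivAt_id t).div_const (ρ ^ 2)).sub_const 1).div_const 3
    have h2 : HasDerivAt Real.smoothTransition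
        (deriv Real.smoothTransition ((t / ρ ^ 2 - 1) / 3)) ((t / ρ ^ 2 - 1) / 3) :=
      ((Real.smoothTransition.contDiff (n := 1)).differentiable (by simp) _).hasDerivAt
    exact (h2.comp t h1).deriv
  have hρ2 : 0 < ρ ^ 2 := by positivity
  refine ⟨fun x => χ (Rn F n x), ⟨?_, ?_⟩, ?_, ?_, ?_, ?_, ?_, ?_⟩
  · exact hχs.comp_contDiffOn hRh.smooth
  · intro l z hl hz
    show χ (Rn F n (l • z)) = χ (Rn F n z)
    rw [hRh.hom l z hl hz]
  · intro x _
    exact ⟨Real.smoothTransition.nonneg _, Real.smoothTransition.le_one _⟩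
  · intro x hx h
    refine Real.smoothTransition.one_of_one_le ?_
    rw [KJ_relJ hF n hx]
    have h1 : (2 * ρ) ^ 2 ≤ relJ (iter F n) x ^ 2 := pow_le_pow_left₀ (by positivity) h 2
    have h3 : 4 ≤ relJ (iter F n) x ^ 2 / ρ ^ 2 := by
      rw [le_div_iff₀ hρ2]
      nlinarith
    linarith
  · intro x hx a
    have hx0 := hne x hx
    have e1 := (hW7 (Fin N) (Rn F n) (Rn F n) χ x (KJ_wd_eq hRh.smooth hx0)
      (KJ_wd_eq hRh.smooth hx0)
      ((hχs.of_le KJ_two_le).contDiffAt)).1 a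
    show ‖wd a (cx fun w => χ (Rn F n w)) x‖ ≤ _
    rw [e1, norm_mul, Complex.norm_real, hχd]
    have e2 := hR n x hx0 a
    rw [hx, mul_one] at e2
    have e3 := hc ((Rn F n x / ρ ^ 2 - 1) / 3)
    rw [Real.norm_eq_abs, abs_mul, abs_of_nonneg (by positivity : 0 ≤ 1 / ρ ^ 2 / 3)]
    calc |deriv Real.smoothTransition ((Rn F n x / ρ ^ 2 - 1) / 3)| * (1 / ρ ^ 2 / 3) *
          ‖wd a (cx (Rn F n)) x‖ ≤ C0 * (1 / ρ ^ 2 / 3) * K4 ^ n := by gcongr
      _ ≤ C0 * (1 / ρ ^ 2) * K4 ^ n := by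
          have : 1 / ρ ^ 2 / 3 ≤ 1 / ρ ^ 2 := by
            have : 0 ≤ 1 / ρ ^ 2 := by positivity
            linarith
          gcongr
      _ ≤ K * (1 / ρ ^ 2) * K ^ n := by gcongr
      _ = K ^ (n + 1) / ρ ^ 2 := by rw [pow_succ]; ring
  · intro x hx i a
    have e := (hit n).1 x (hne x hx) i a
    rw [hx, mul_one] at e
    refine e.trans (mul_le_mul_of_nonneg_right ?_ (KJ_nrm_nonneg _))
    calc K0 ^ n ≤ K ^ n := by gcongr
      _ ≤ K ^ (n + 1) := pow_le_pow_right₀ hKge (by omega)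
  · intro x hx i a b
    have e := (hit n).2 x (hne x hx) i a b
    rw [hx, one_pow, mul_one] at e
    refine e.trans (mul_le_mul_of_nonneg_right ?_ (KJ_nrm_nonneg _))
    calc K0 ^ (2 * n) = (K0 ^ 2) ^ n := by rw [pow_mul]
      _ ≤ K ^ n := by gcongr
      _ ≤ K ^ (n + 1) := pow_le_pow_right₀ hKge (by omega)
  · intro x hx hκ
    have hx0 := hne x hx
    have h1 : 0 < (Rn F n x / ρ ^ 2 - 1) / 3 := by
      by_contra h
      exact hκ (Real.smoothTransition.zero_of_nonpos (not_lt.1 h))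
    have h3 : 1 < Rn F n x / ρ ^ 2 := by linarith
    rw [lt_div_iff₀ hρ2, one_mul, KJ_relJ hF n hx0] at h3
    have hy := KJ_nrm_pos (KJ_it_ne hF n hx0)
    have h4 : 0 ≤ relJ (iter F n) x := by
      unfold relJ
      rw [hx]
      positivity
    have h5 : ρ < relJ (iter F n) x := lt_of_pow_lt_pow_left₀ 2 h4 h3
    unfold relJ at h5
    rw [hx, one_pow, mul_one, lt_div_iff₀ (by positivity)] at h5
    exact h5.le

end

end Pool.Agent.H43.EQ
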