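import Pool.Agent.H92.EQ.TK
import Pool.Agent.H43.EQ.KJ

/-!
Row KN (local constancy) of the board for MP_75a732_an.
-/

namespace Pool.Agent.H43.EQ

open scoped BigOperators ComplexConjugate ContDiff ComplexOrder
open MeasureTheory Pool.Agent.H92.EQ

noncomputable section

theorem KN_asym (d : ℕ) (hd : 2 ≤ d) (X a ε : ℝ) (hX : 0 < X) (ha : 0 < a) (hε : 0 < ε) :
    ∃ n0 : ℕ, ∀ n ≥ n0, X ^ n * Real.exp (-(a * (d : ℝ) ^ n)) ≤ ε := by
  have hd1 : (1 : ℝ) < d := by exact_mod_cast (by omega : 1 < d)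
  have h1 : Filter.Tendsto (fun n : ℕ => (n : ℝ) ^ 1 / (d : ℝ) ^ n) Filter.atTop (nhds 0) :=
    tendsto_pow_const_div_const_pow_of_one_lt 1 hd1
  have h2 : ∀ᶠ n : ℕ in Filter.atTop, (n : ℝ) ^ 1 / (d : ℝ) ^ n < a / (2 * (|Real.log X| + 1)) :=
    h1.eventually_lt_const (by positivity)
  have h3 : Filter.Tendsto (fun n : ℕ => Real.exp (-((a / 2) * (d : ℝ) ^ n))) Filter.atTop
      (nhds 0) :=
    Real.tendsto_exp_neg_atTop_nhds_zero.comp
      ((tendsto_pow_atTop_atTop_of_one_lt hd1).const_mul_atTop (by positivity))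
  have h4 : ∀ᶠ n : ℕ in Filter.atTop, Real.exp (-((a / 2) * (d : ℝ) ^ n)) < ε :=
    h3.eventually_lt_const hε
  obtain ⟨n0, hn0⟩ := Filter.eventually_atTop.1 (h2.and h4)
  refine ⟨n0, fun n hn => ?_⟩
  obtain ⟨e1, e2⟩ := hn0 n hn
  have hdn : 0 < (d : ℝ) ^ n := by positivity
  rw [pow_one, div_lt_div_iff₀ hdn (by positivity)] at e1
  have e3 : (n : ℝ) * |Real.log X| ≤ (a / 2) * (d : ℝ) ^ n := by
    have : (0 : ℝ) ≤ n := Nat.cast_nonneg n
    nlinarith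
  have e4 : X ^ n = Real.exp (n * Real.log X) := by
    rw [← Real.log_pow, Real.exp_log (by positivity)]
  rw [e4, ← Real.exp_add]
  refine le_trans (Real.exp_le_exp.2 ?_) e2.le
  have e5 : (n : ℝ) * Real.log X ≤ n * |Real.log X| :=
    mul_le_mul_of_nonneg_left (le_abs_self _) (Nat.cast_nonneg n)
  linarith

theorem KN_sum_inv (n i1 : ℕ) (hn : i1 ≤ n) :
    ∑ m ∈ Finset.range (n - i1), (((n - m : ℕ) : ℝ) ^ 2)⁻¹ ≤ 2 := by
  have h1 : ∑ m ∈ Finset.range (n - i1), (((n - m : ℕ) : ℝ) ^ 2)⁻¹ =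
      ∑ i ∈ Finset.Ioo i1 (n + 1), ((i : ℝ) ^ 2)⁻¹ := by
    refine Finset.sum_nbij' (fun m => n - m) (fun i => n - i) ?_ ?_ ?_ ?_ ?_
    · intro m hm
      rw [Finset.mem_range] at hm
      rw [Finset.mem_Ioo]
      constructor <;> omega
    · intro m hm
      rw [Finset.mem_Ioo] at hm
      rw [Finset.mem_range]
      omega
    · intro m hm
      rw [Finset.mem_range] at hm
      show n - (n - m) = m
      omega
    · intro m hm
      rw [Finset.mem_Ioo] at hm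
      show n - (n - m) = m
      omega
    · intro m _
      rfl
  rw [h1]
  refine (sum_Ioo_inv_sq_le i1 (n + 1)).trans ?_
  rw [div_le_iff₀ (by positivity)]
  have : (0 : ℝ) ≤ i1 := Nat.cast_nonneg i1
  linarith

/-- The cutoff is bounded by the sum of the indicators. -/
theorem KN_pt {N d : ℕ} {F : Fin N → MvPolynomial (Fin N) ℂ} {c : ℝ} (hc : 0 < c) (hc1 : c ≤ 1)
    (hL : ∀ (n : ℕ) (x : Fin N → ℂ), x ≠ 0 →
      c ^ n * ∏ m ∈ Finset.range n, nv (detP F) (N * (d - 1)) (ev (iter F m) x) ≤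
        relJ (iter F n) x)
    {n i1 : ℕ} (hn : i1 ≤ n) {δ : ℝ} (hδ : 0 < δ) {κ : (Fin N → ℂ) → ℝ}
    (hκ01 : ∀ x, x ≠ 0 → 0 ≤ κ x ∧ κ x ≤ 1)
    (hκ : ∀ x, x ≠ 0 → 2 * ((1 / 2) * c ^ n * Real.exp (-(2 * δ * (d : ℝ) ^ n))) ≤
      relJ (iter F (n - i1)) x → κ x = 1) {z : Fin N → ℂ} (hz : z ≠ 0) :
    1 - κ z ≤ ∑ i ∈ Finset.Ioc i1 n,
      Set.indicator (Cr F d (Real.exp (-(δ / (i : ℝ) ^ 2 * (d : ℝ) ^ n)))) (fun _ => (1 : ℝ))
        (ev (iter F (n - i)) z) := by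
  by_cases h : ∃ i ∈ Finset.Ioc i1 n,
      ev (iter F (n - i)) z ∈ Cr F d (Real.exp (-(δ / (i : ℝ) ^ 2 * (d : ℝ) ^ n)))
  · obtain ⟨i, hi, hz'⟩ := h
    have h1 : (1 : ℝ) = Set.indicator (Cr F d (Real.exp (-(δ / (i : ℝ) ^ 2 * (d : ℝ) ^ n))))
        (fun _ => (1 : ℝ)) (ev (iter F (n - i)) z) := by
      rw [Set.indicator_of_mem hz']
    have h2 := Finset.single_le_sum (f := fun i : ℕ =>
      Set.indicator (Cr F d (Real.exp (-(δ / (i : ℝ) ^ 2 * (d : ℝ) ^ n)))) (fun _ => (1 : ℝ))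
        (ev (iter F (n - i)) z)) (fun i _ => Set.indicator_nonneg (fun _ _ => zero_le_one) _) hi
    have h3 := (hκ01 z hz).1
    have h4 := h1.le.trans h2
    linarith
  · push Not at h
    have hall : ∀ m ∈ Finset.range (n - i1),
        Real.exp (-(δ * (d : ℝ) ^ n * (((n - m : ℕ) : ℝ) ^ 2)⁻¹)) ≤
          nv (detP F) (N * (d - 1)) (ev (iter F m) z) := by
      intro m hm
      rw [Finset.mem_range] at hm
      have h1 := h (n - m) (by rw [Finset.mem_Ioc]; constructor <;> omega)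
      have h2 : n - (n - m) = m := by omega
      rw [h2] at h1
      have h3 : ¬ nv (detP F) (N * (d - 1)) (ev (iter F m) z) <
          Real.exp (-(δ / (((n - m : ℕ) : ℝ)) ^ 2 * (d : ℝ) ^ n)) := h1
      rw [not_lt] at h3
      refine le_trans (le_of_eq ?_) h3
      congr 1
      rw [div_eq_mul_inv]
      ring
    have hprod : Real.exp (-(2 * δ * (d : ℝ) ^ n)) ≤
        ∏ m ∈ Finset.range (n - i1), nv (detP F) (N * (d - 1)) (ev (iter F m) z) := by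
      calc Real.exp (-(2 * δ * (d : ℝ) ^ n))
          ≤ Real.exp (∑ m ∈ Finset.range (n - i1),
              -(δ * (d : ℝ) ^ n * (((n - m : ℕ) : ℝ) ^ 2)⁻¹)) := by
            refine Real.exp_le_exp.2 ?_
            rw [Finset.sum_neg_distrib, ← Finset.mul_sum]
            have e1 := KN_sum_inv n i1 hn
            have e2 : 0 ≤ δ * (d : ℝ) ^ n := by positivity
            nlinarith
        _ = ∏ m ∈ Finset.range (n - i1),
              Real.exp (-(δ * (d : ℝ) ^ n * (((n - m : ℕ) : ℝ) ^ 2)⁻¹)) := Real.exp_sum _ _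
        _ ≤ _ := Finset.prod_le_prod (fun m _ => (Real.exp_pos _).le) hall
    have hrel := hL (n - i1) z hz
    have hge : 2 * ((1 / 2) * c ^ n * Real.exp (-(2 * δ * (d : ℝ) ^ n))) ≤
        relJ (iter F (n - i1)) z := by
      refine le_trans ?_ hrel
      have e1 : c ^ n ≤ c ^ (n - i1) := pow_le_pow_of_le_one hc.le hc1 (by omega)
      calc 2 * ((1 / 2) * c ^ n * Real.exp (-(2 * δ * (d : ℝ) ^ n)))
          = c ^ n * Real.exp (-(2 * δ * (d : ℝ) ^ n)) := by ring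
        _ ≤ _ := by gcongr
    rw [hκ z hz hge, sub_self]
    exact Finset.sum_nonneg fun i _ => Set.indicator_nonneg (fun _ _ => zero_le_one) _

theorem KN_mixD {ι : Type} [Fintype ι] [DecidableEq ι] {p m : ℕ}
    (S : (Fin p → ι) → (Fin p → ι) → ℂ) (H : Fin m → Matrix ι ι ℂ) (c : ℂ) :
    mixD (fun I J => c * S I J) H = c * mixD S H := by
  unfold mixD
  rw [Finset.mul_sum]
  refine Finset.sum_congr rfl fun e _ => ?_
  rw [Finset.mul_sum]
  refine Finset.sum_congr rfl fun e' _ => ?_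
  ring

/-- Homogeneity of the pairing in the form. -/
theorem KN_pair {N p q : ℕ} (φ : (Fin N → ℂ) → ℝ) (S S' : Form (Fin N) p)
    (u : Fin q → (Fin N → ℂ) → ℝ) (c : ℝ) (h : ∀ z I J, S' z I J = (c : ℂ) * S z I J) :
    pair φ S' u = c * pair φ S u := by
  unfold pair Iint
  rw [← integral_const_mul]
  congr 1
  funext z
  have h1 : Q S' u z = c * Q S u z := by
    unfold Q
    have h2 : S' z = fun I J => (c : ℂ) * S z I J := by
      funext I J
      exact h z I J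
    rw [h2, KN_mixD, Complex.re_ofReal_mul]
  show φ z * Q S' u z = c * (φ z * Q S u z)
  rw [h1]
  ring

theorem KN_meas {N d : ℕ} (F : Fin N → MvPolynomial (Fin N) ℂ) (r : ℝ) (m : ℕ) :
    Measurable (fun z => Set.indicator (Cr F d r) (fun _ => (1 : ℝ)) (ev (iter F m) z)) := by
  have h1 : MeasurableSet (Cr F d r) := by
    unfold Cr
    refine measurableSet_lt ?_ measurable_const
    unfold nv
    exact ((MvPolynomial.continuous_eval _).norm.measurable).div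
      ((KJ_nrm_cont.pow _).measurable)
  exact (measurable_const.indicator h1).comp (KJ_ev_cont _).measurable

/-- The bad part. -/
theorem KN_bad (hP1 : T_P1) (hP3 : T_P3) (hL1 : T_L1) (hL3 : T_L3) {N d p q : ℕ}
    {F : Fin N → MvPolynomial (Fin N) ℂ}
    (hN : p + q + 1 = N) {n i1 : ℕ} {δ : ℝ} {κ : (Fin N → ℂ) → ℝ} (hκ : Hom0 κ)
    (hpt : ∀ z : Fin N → ℂ, z ≠ 0 → 1 - κ z ≤ ∑ i ∈ Finset.Ioc i1 n,
      Set.indicator (Cr F d (Real.exp (-(δ / (i : ℝ) ^ 2 * (d : ℝ) ^ n)))) (fun _ => (1 : ℝ))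
        (ev (iter F (n - i)) z)) (S : Form (Fin N) p) (hS : ProjForm (Sn F d n S)) :
    pair (fun z => 1 - κ z) (Sn F d n S) (fun _ : Fin q => ell) ≤
      ∑ i ∈ Finset.Ioc i1 n, beta F d n i q (Real.exp (-(δ / (i : ℝ) ^ 2 * (d : ℝ) ^ n))) S := by
  have hell : ∀ j : Fin q, Pot ((fun _ : Fin q => (ell : (Fin N → ℂ) → ℝ)) j) :=
    fun _ => (hL3 N).1
  have hLH : ∀ j : Fin q, LH ((fun _ : Fin q => (1 : ℝ)) j)
      ((fun _ : Fin q => (ell : (Fin N → ℂ) → ℝ)) j) :=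
    fun _ => ((hL1 N 0 0 0 0 ell ell).2.2.1) (hL3 N).1
  set T := Sn F d n S with hT
  set f : ℕ → (Fin N → ℂ) → ℝ := fun i z =>
    Set.indicator (Cr F d (Real.exp (-(δ / (i : ℝ) ^ 2 * (d : ℝ) ^ n)))) (fun _ => (1 : ℝ))
        (ev (iter F (n - i)) z) with hf
  have hi1 := (hP1 N p q T (fun _ => ell) (fun _ => 1) hN hS hLH).1
  have hi2 := (hP1 N p q T (fun _ => ell) (fun _ => 1) hN hS hLH).2
  have hfi : ∀ i, IntegrableOn (fun z => f i z * Q T (fun _ : Fin q => ell) z)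
      {z : Fin N → ℂ | 0 ≤ ell z ∧ ell z < 1} := by
    intro i
    refine hi1 (f i) 1 (KN_meas F _ _) ?_
    intro z _
    rw [hf]
    by_cases hm : ev (iter F (n - i)) z ∈
      Cr F d (Real.exp (-(δ / (i : ℝ) ^ 2 * (d : ℝ) ^ n)))
    · simp only [Set.indicator_of_mem hm, abs_one, le_refl]
    · simp only [Set.indicator_of_notMem hm, abs_zero, zero_le_one]
  have hκi : IntegrableOn (fun z => (1 - κ z) * Q T (fun _ : Fin q => ell) z)
      {z : Fin N → ℂ | 0 ≤ ell z ∧ ell z < 1} :=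
    hi2 (fun z => 1 - κ z) (continuousOn_const.sub hκ.smooth.continuousOn)
  have hpos := (hP3 N p q T (fun _ => ell) hN hS hell).2.1
    (fun z => ∑ i ∈ Finset.Ioc i1 n, f i z - (1 - κ z)) (fun z hz => by
      have := hpt z hz
      show 0 ≤ ∑ i ∈ Finset.Ioc i1 n, f i z - (1 - κ z)
      linarith)
  have hsplit : pair (fun z => ∑ i ∈ Finset.Ioc i1 n, f i z - (1 - κ z)) T
      (fun _ : Fin q => ell) = ∑ i ∈ Finset.Ioc i1 n, pair (f i) T (fun _ : Fin q => ell) -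
        pair (fun z => 1 - κ z) T (fun _ : Fin q => ell) := by
    unfold pair Iint
    rw [← integral_finsetSum _ (fun i _ => hfi i), ← integral_sub (integrable_finsetSum _
      (fun i _ => hfi i)) hκi]
    congr 1
    funext z
    show (∑ i ∈ Finset.Ioc i1 n, f i z - (1 - κ z)) * Q T (fun _ : Fin q => ell) z = _
    rw [sub_mul, Finset.sum_mul]
  rw [hsplit] at hpos
  have : ∑ i ∈ Finset.Ioc i1 n, pair (f i) T (fun _ : Fin q => ell) =
      ∑ i ∈ Finset.Ioc i1 n, beta F d n i q (Real.exp (-(δ / (i : ℝ) ^ 2 * (d : ℝ) ^ n))) S := rfl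
  linarith

theorem KN_det {N : ℕ} (A : Matrix (Fin N) (Fin N) ℂ) (τ : ℝ)
    (hτ1 : τ ≤ 1 / (2 * N))
    (hA : ∀ i j, ‖A i j - (1 : Matrix (Fin N) (Fin N) ℂ) i j‖ ≤ τ) : A.det ≠ 0 := by
  refine det_ne_zero_of_sum_row_lt_diag fun k => ?_
  have hN : 0 < N := lt_of_le_of_lt (Nat.zero_le _) k.2
  have hN1 : (1 : ℝ) ≤ N := by exact_mod_cast hN
  have h1 : ∑ j ∈ Finset.univ.erase k, ‖A k j‖ ≤ (N - 1) * τ := by
    calc ∑ j ∈ Finset.univ.erase k, ‖A k j‖ ≤ ∑ j ∈ Finset.univ.erase k, τ := by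
          refine Finset.sum_le_sum fun j hj => ?_
          have := hA k j
          rw [Matrix.one_apply_ne (Finset.ne_of_mem_erase hj).symm, sub_zero] at this
          exact this
      _ = (N - 1) * τ := by
          rw [Finset.sum_const, Finset.card_erase_of_mem (Finset.mem_univ k), Finset.card_univ,
            Fintype.card_fin, nsmul_eq_mul, Nat.cast_sub hN, Nat.cast_one]
  have h2 : 1 - τ ≤ ‖A k k‖ := by
    have := hA k k
    rw [Matrix.one_apply_eq] at this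
    have h3 : ‖(1 : ℂ)‖ ≤ ‖A k k‖ + ‖A k k - 1‖ := by
      calc ‖(1 : ℂ)‖ = ‖A k k - (A k k - 1)‖ := by congr 1; ring
        _ ≤ _ := norm_sub_le _ _
    rw [norm_one] at h3
    linarith
  have h3 : (N : ℝ) * τ ≤ 1 / 2 := by
    calc (N : ℝ) * τ ≤ N * (1 / (2 * N)) := by gcongr
      _ = 1 / 2 := by field_simp
  nlinarith

/-- Row KN. -/
theorem pf_KN (hKS : T_KS) (hKJ : T_KJ) (hKL : T_KL) (hKM : T_KM) (hP4 : T_P4) (h12 : T_D12)
    (h6 : T_L6) (hP5 : T_P5) (hD7 : T_D7) (hP1 : T_P1) (hP3 : T_P3) (hL1 : T_L1) (hL2 : T_L2)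
    (hL3 : T_L3) (hW6 : T_W6) (hW1 : T_W1) : T_KN := by
  intro N d p F hd hp hF hConv hPM hLL q hN φ u hφ hφ0 hu η hη
  have hN0 : 0 < N := by omega
  have hc0 := ((hD7 N p).2 q hN).1
  set c0 := mass q (om N p) with hc0def
  obtain ⟨B, hB, hbφ, hbdφ⟩ := KJ_Hom0_bd h6 hL1 hL2 hW6 hφ
  obtain ⟨C, hC, hP4'⟩ := hP4 N q u hu
  obtain ⟨cu, mu, hcu, hLu⟩ := hLL q u hu
  obtain ⟨ce, me, hce, hLe⟩ := hLL q (fun _ => ell) (fun _ => (hL3 N).1)
  obtain ⟨c, hc, hc1, hL⟩ := hKL N d F hN0 hd hF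
  obtain ⟨K, hK, hKJ'⟩ := hKJ N d F hN0 hd hF
  obtain ⟨i1, hi1⟩ := hKS N d p q F hd hN hF hConv hPM (η / (2 * B * C * c0)) (by positivity)
  refine ⟨i1, fun δ hδ => ?_⟩
  obtain ⟨m, hm⟩ : ∃ m : ℕ, m = mu + me + 1 := ⟨_, rfl⟩
  have hmpos : (0 : ℝ) < m := by exact_mod_cast (by omega : 0 < m)
  obtain ⟨δ', hδ'⟩ : ∃ δ' : ℝ, δ' = δ / (12 * m) := ⟨_, rfl⟩
  have hδ'pos : 0 < δ' := by rw [hδ']; positivity
  have hδm : 6 * m * δ' = δ / 2 := by rw [hδ']; field_simp; norm_num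
  obtain ⟨n1, hn1, hKS'⟩ := hi1 δ' hδ'pos
  obtain ⟨n2, hn2⟩ := KN_asym d hd ((K / c ^ 3) ^ m) (δ / 2)
    (η / (2 * (1 + B * C)) / ((cu + ce) * c0) / (16 * B * K) ^ m) (by positivity) (by positivity)
    (by positivity)
  obtain ⟨n3, hn3⟩ := KN_asym d hd 1 δ (1 / (2 * N)) one_pos hδ (by positivity)
  refine ⟨max n1 (max n2 n3), hn1.trans (le_max_left _ _), fun n hn S hS hSm A hA => ?_⟩
  have hnn1 : n1 ≤ n := (le_max_left _ _).trans hn
  have hnn2 : n2 ≤ n := ((le_max_left _ _).trans (le_max_right _ _)).trans hn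
  have hnn3 : n3 ≤ n := ((le_max_right _ _).trans (le_max_right _ _)).trans hn
  have hin : i1 ≤ n := hn1.trans hnn1
  obtain ⟨n', hn'⟩ : ∃ n' : ℕ, n' = n - i1 := ⟨_, rfl⟩
  have hnadd : i1 + n' = n := by omega
  rw [← hn']
  obtain ⟨hH, _, _, hSnadd, _⟩ := h12 N d F (by omega) hF i1 n'
  have hPn := (h12 N d F (by omega) hF 0 n).2.2.2.2
  have hPi := (h12 N d F (by omega) hF 0 i1).2.2.2.2
  have hS1 : ProjForm (Sn F d i1 S) := hPi p S hS
  have hT : ProjForm (Sn F d n S) := hPn p S hS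
  have hD1 : 1 ≤ d ^ n' := Nat.one_le_pow _ _ (by omega)
  have hdR : (0 : ℝ) < d := by exact_mod_cast (by omega : 0 < d)
  set Φ := iter F n' with hΦ
  set S1 := Sn F d i1 S with hS1def
  -- the scale factor
  obtain ⟨Λ, hΛ⟩ : ∃ Λ : ℝ, Λ = (d : ℝ) ^ (p * n') := ⟨_, rfl⟩
  have hΛpos : 0 < Λ := by rw [hΛ]; positivity
  have hpull : ∀ z I J, pull Φ S1 z I J = ((Λ : ℝ) : ℂ) * Sn F d n S z I J := by
    intro z I J
    have e1 := hSnadd p S z
    rw [hnadd] at e1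
    rw [e1]
    show pull Φ S1 z I J = (Λ : ℂ) * (((d : ℂ) ^ (p * n'))⁻¹ * pull (iter F n') S1 z I J)
    have e2 : ((Λ : ℝ) : ℂ) = (d : ℂ) ^ (p * n') := by rw [hΛ]; push_cast; rfl
    have e3 : (d : ℂ) ^ (p * n') ≠ 0 := by
      have : (d : ℂ) ≠ 0 := by exact_mod_cast (by omega : d ≠ 0)
      exact pow_ne_zero _ this
    rw [e2, ← mul_assoc, mul_inv_cancel₀ e3, one_mul]
  have hpp : ∀ (f : (Fin N → ℂ) → ℝ) (v : Fin q → (Fin N → ℂ) → ℝ),
      pair f (pull Φ S1) v = Λ * pair f (Sn F d n S) v := fun f v =>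
    KN_pair f _ _ v Λ hpull
  have hmass1 : mass q S1 = c0 := by
    rw [hS1def, (hP5 N p q d S hN hS).2.1 F i1 (by omega) hF, hSm]
  have hmassp : mass q (pull Φ S1) = Λ * c0 := by
    rw [(hP5 N p q (d ^ n') S1 hN hS1).1 Φ hD1 hH, hmass1, hΛ]
    push_cast
    rw [← pow_mul, mul_comm n' p]
  -- the parameters
  obtain ⟨ρ, hρ⟩ : ∃ ρ : ℝ, ρ = (1 / 2) * c ^ n * Real.exp (-(2 * δ' * (d : ℝ) ^ n)) := ⟨_, rfl⟩
  have hρpos : 0 < ρ := by rw [hρ]; positivity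
  have hρ1 : ρ ≤ 1 := by
    rw [hρ]
    have e1 : c ^ n ≤ 1 := pow_le_one₀ hc.le hc1
    have e2 : Real.exp (-(2 * δ' * (d : ℝ) ^ n)) ≤ 1 := by
      rw [Real.exp_le_one_iff]
      have : 0 < δ' * (d : ℝ) ^ n := by positivity
      linarith
    calc (1 / 2) * c ^ n * Real.exp (-(2 * δ' * (d : ℝ) ^ n)) ≤ (1 / 2) * 1 * 1 := by gcongr
      _ ≤ 1 := by norm_num
  obtain ⟨κ, hκ, hκ01, hκone, hκwd, hjac, hsec, hdet⟩ := hKJ' n' ρ hρpos hρ1
  obtain ⟨Y, hY⟩ : ∃ Y : ℝ, Y = K ^ (n + 1) / ρ ^ 2 := ⟨_, rfl⟩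
  have hρ2 : 0 < ρ ^ 2 := by positivity
  have hρ21 : ρ ^ 2 ≤ 1 := pow_le_one₀ hρpos.le hρ1
  have hKn1 : 1 ≤ K ^ (n + 1) := one_le_pow₀ hK
  have hKn' : K ^ (n' + 1) ≤ K ^ (n + 1) := pow_le_pow_right₀ hK (by omega)
  have hY0 : K ^ (n + 1) ≤ Y := by
    rw [hY, le_div_iff₀ hρ2]
    nlinarith
  have hY1 : 1 ≤ Y := hKn1.trans hY0
  have hY2 : K ^ (n' + 1) / ρ ^ 2 ≤ Y := by rw [hY]; gcongr
  have hBY : Y ≤ B * Y := by nlinarith
  have hM1 : 1 ≤ 2 * B * Y := by nlinarith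
  have hMY : Y ≤ 2 * B * Y := by nlinarith
  have hMB : B + B * Y ≤ 2 * B * Y := by nlinarith
  obtain ⟨τ, hτ⟩ : ∃ τ : ℝ, τ = Real.exp (-(δ * (d : ℝ) ^ n)) := ⟨_, rfl⟩
  rw [← hτ] at hA
  have hτ0 : 0 ≤ τ := by rw [hτ]; positivity
  have hτ1 : τ ≤ 1 / (2 * N) := by
    have := hn3 n hnn3
    rw [one_pow, one_mul] at this
    rw [hτ]
    exact this
  have hne : ∀ x : Fin N → ℂ, nrm x = 1 → x ≠ 0 := by
    intro x hx h
    rw [h] at hx
    have : nrm (0 : Fin N → ℂ) = 0 := by simp [nrm, nsq]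
    rw [this] at hx
    norm_num at hx
  have hjac' : ∀ x, nrm x = 1 → ∀ i a, ‖jac Φ x i a‖ ≤ 2 * B * Y * nrm (ev Φ x) := by
    intro x hx i a
    refine (hjac x hx i a).trans (mul_le_mul_of_nonneg_right ?_ (KJ_nrm_nonneg _))
    linarith
  have hsec' : ∀ x, nrm x = 1 → ∀ i a b,
      ‖MvPolynomial.eval x (MvPolynomial.pderiv b (MvPolynomial.pderiv a (Φ i)))‖ ≤
        2 * B * Y * nrm (ev Φ x) := by
    intro x hx i a b
    refine (hsec x hx i a b).trans (mul_le_mul_of_nonneg_right ?_ (KJ_nrm_nonneg _))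
    linarith
  have hκφ : Hom0 (fun z => κ z * φ z) := by
    refine ⟨hκ.smooth.mul hφ.smooth, ?_⟩
    intro l z hl hz
    show κ (l • z) * φ (l • z) = κ z * φ z
    rw [hκ.hom l z hl hz, hφ.hom l z hl hz]
  -- the two local estimates
  have hL1' := hLu (d ^ n') Φ hD1 hH (fun z => κ z * φ z) (2 * B * Y) ρ hκφ hM1 hρpos hρ1
    (by
      intro x hx
      show |κ x * φ x| ≤ _
      rw [abs_mul, abs_of_nonneg (hκ01 x (hne x hx)).1]
      calc κ x * |φ x| ≤ 1 * B := by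
            have := (hκ01 x (hne x hx)).2
            have := hbφ x (hne x hx)
            gcongr
        _ ≤ 2 * B * Y := by nlinarith)
    (by
      intro x hx a
      have hx0 := hne x hx
      have hfun : (fun w => ((κ w * φ w : ℝ) : ℂ)) = fun w => cx κ w * cx φ w := by
        funext w
        show ((κ w * φ w : ℝ) : ℂ) = (κ w : ℂ) * (φ w : ℂ)
        push_cast
        rfl
      have hd1 : DifferentiableAt ℝ (cx κ) x :=
        ((KJ_cx_contDiff hκ.smooth).contDiffAt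
          (isOpen_compl_singleton.mem_nhds hx0)).differentiableAt (by simp)
      have hd2 : DifferentiableAt ℝ (cx φ) x :=
        ((KJ_cx_contDiff hφ.smooth).contDiffAt
          (isOpen_compl_singleton.mem_nhds hx0)).differentiableAt (by simp)
      show ‖wd a (fun w => ((κ w * φ w : ℝ) : ℂ)) x‖ ≤ _
      rw [hfun, (hW1 (Fin N) a (cx κ) (cx φ) x hd1 hd2).2.2.1]
      have e1 : ‖cx κ x‖ ≤ 1 := by
        show ‖((κ x : ℝ) : ℂ)‖ ≤ 1
        rw [Complex.norm_real, Real.norm_of_nonneg (hκ01 x hx0).1]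
        exact (hκ01 x hx0).2
      have e2 : ‖cx φ x‖ ≤ B := by
        show ‖((φ x : ℝ) : ℂ)‖ ≤ B
        rw [Complex.norm_real]
        exact hbφ x hx0
      have e3 : ‖wd a (cx φ) x‖ ≤ B := by
        have := hbdφ x hx0 a
        rw [hx, mul_one] at this
        exact this
      have e4 : ‖wd a (cx κ) x‖ ≤ Y := (hκwd x hx a).trans hY2
      calc ‖cx κ x * wd a (cx φ) x + cx φ x * wd a (cx κ) x‖
          ≤ ‖cx κ x‖ * ‖wd a (cx φ) x‖ + ‖cx φ x‖ * ‖wd a (cx κ) x‖ := by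
            refine (norm_add_le _ _).trans ?_
            rw [norm_mul, norm_mul]
        _ ≤ 1 * B + B * Y := by gcongr
        _ ≤ 2 * B * Y := by linarith)
    hjac' hsec'
    (by
      intro x hx h
      refine hdet x hx fun h0 => h ?_
      show κ x * φ x = 0
      rw [h0, zero_mul])
    S1 hS1 A τ hτ0 hτ1 hA
  have hL2' := hLe (d ^ n') Φ hD1 hH κ (2 * B * Y) ρ hκ hM1 hρpos hρ1
    (by
      intro x hx
      rw [abs_of_nonneg (hκ01 x (hne x hx)).1]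
      exact (hκ01 x (hne x hx)).2.trans hM1)
    (fun x hx a => ((hκwd x hx a).trans hY2).trans hMY)
    hjac' hsec' hdet S1 hS1 A τ hτ0 hτ1 hA
  -- the size of the error
  have hMρ : 2 * B * Y / ρ = 16 * B * K * (K / c ^ 3) ^ n *
      Real.exp (6 * δ' * (d : ℝ) ^ n) := by
    have e1 : ρ ^ 3 = (1 / 8) * (c ^ 3) ^ n * (Real.exp (6 * δ' * (d : ℝ) ^ n))⁻¹ := by
      rw [hρ, mul_pow, mul_pow, ← Real.exp_nat_mul, ← Real.exp_neg]
      have e2 : ((3 : ℕ) : ℝ) * -(2 * δ' * (d : ℝ) ^ n) = -(6 * δ' * (d : ℝ) ^ n) := by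
        push_cast
        ring
      rw [e2]
      ring
    have e3 : 2 * B * Y / ρ = 2 * B * K ^ (n + 1) / ρ ^ 3 := by
      rw [hY]
      field_simp
    rw [e3, e1, div_pow, pow_succ]
    have := Real.exp_pos (6 * δ' * (d : ℝ) ^ n)
    field_simp
    ring
  have hMρ1 : 1 ≤ 2 * B * Y / ρ := by
    rw [le_div_iff₀ hρpos]
    linarith
  have hW : (2 * B * Y / ρ) ^ m * τ ≤
      η / (2 * (1 + B * C)) / ((cu + ce) * c0) := by
    have e1 := hn2 n hnn2
    have e2 : (2 * B * Y / ρ) ^ m * τ = (16 * B * K) ^ m *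
        (((K / c ^ 3) ^ m) ^ n * Real.exp (-(δ / 2 * (d : ℝ) ^ n))) := by
      rw [hMρ, hτ, mul_pow, mul_pow, ← Real.exp_nat_mul]
      have e3 : Real.exp (-(δ / 2 * (d : ℝ) ^ n)) =
          Real.exp ((m : ℝ) * (6 * δ' * (d : ℝ) ^ n)) * Real.exp (-(δ * (d : ℝ) ^ n)) := by
        rw [← Real.exp_add]
        congr 1
        have : (m : ℝ) * (6 * δ' * (d : ℝ) ^ n) = (6 * m * δ') * (d : ℝ) ^ n := by ring
        rw [this, hδm]
        ring
      rw [e3]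
      have e4 : ((K / c ^ 3) ^ n) ^ m = ((K / c ^ 3) ^ m) ^ n := by
        rw [← pow_mul, ← pow_mul, mul_comm]
      rw [e4]
      ring
    rw [e2]
    have e5 : 0 < (16 * B * K) ^ m := by positivity
    rw [le_div_iff₀ e5] at e1
    linarith
  obtain ⟨e, he⟩ : ∃ e : ℝ, e = η / (2 * (1 + B * C)) * Λ := ⟨_, rfl⟩
  have hepos : 0 ≤ e := by rw [he]; positivity
  have hgen : ∀ (c' : ℝ) (m' : ℕ), 0 < c' → c' ≤ cu + ce → m' ≤ m →
      c' * (2 * B * Y / ρ) ^ m' * τ * mass q (pull Φ S1) ≤ e := by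
    intro c' m' hc' hc'' hm'
    rw [hmassp, he]
    have e1 : (2 * B * Y / ρ) ^ m' ≤ (2 * B * Y / ρ) ^ m := pow_le_pow_right₀ hMρ1 hm'
    calc c' * (2 * B * Y / ρ) ^ m' * τ * (Λ * c0)
        ≤ (cu + ce) * (2 * B * Y / ρ) ^ m * τ * (Λ * c0) := by gcongr
      _ = (cu + ce) * c0 * ((2 * B * Y / ρ) ^ m * τ) * Λ := by ring
      _ ≤ (cu + ce) * c0 * (η / (2 * (1 + B * C)) / ((cu + ce) * c0)) * Λ := by gcongr
      _ = η / (2 * (1 + B * C)) * Λ := by
          have : (cu + ce) * c0 ≠ 0 := by positivity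
          field_simp
  have hE1 := hL1'.trans (hgen cu mu hcu (by linarith) (by omega))
  have hE2 := hL2'.trans (hgen ce me hce (by linarith) (by omega))
  -- the comparison
  have hdetA := KN_det A τ hτ1 hA
  have hKM' := hKM N p q (d ^ n') Φ S1 κ φ u B C e A hN hD1 hH hS1 hκ hφ hu hκ01
    (fun z hz => ⟨hφ0 z hz, (le_abs_self _).trans (hbφ z hz)⟩) hC hepos
    (fun S' hS' z hz => hP4' p S' hN hS' z hz) hdetA hE1 hE2
  rw [hpp φ u, hpp (fun z => 1 - κ z) (fun _ => ell)] at hKM'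
  rw [← hΛ]
  refine hKM'.trans ?_
  -- the bad part
  have hpt : ∀ z : Fin N → ℂ, z ≠ 0 → 1 - κ z ≤ ∑ i ∈ Finset.Ioc i1 n,
      Set.indicator (Cr F d (Real.exp (-(δ' / (i : ℝ) ^ 2 * (d : ℝ) ^ n)))) (fun _ => (1 : ℝ))
        (ev (iter F (n - i)) z) := by
    intro z hz
    refine KN_pt hc hc1 hL hin hδ'pos hκ01 ?_ hz
    intro x hx h
    refine hκone x hx ?_
    rw [← hn'] at h
    rw [hρ]
    exact h
  have hbad := KN_bad hP1 hP3 hL1 hL3 hN hκ hpt S hT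
  have hks := hKS' n hnn1 S hS hSm
  have hfin := hbad.trans hks
  calc B * C * (Λ * pair (fun z => 1 - κ z) (Sn F d n S) (fun _ : Fin q => ell)) +
        (1 + B * C) * e
      ≤ B * C * (Λ * (η / (2 * B * C * c0) * c0)) + (1 + B * C) * e := by gcongr
    _ = η * Λ := by
        rw [he]
        have h1 : 1 + B * C ≠ 0 := by positivity
        field_simp
        ring

end

end Pool.Agent.H43.EQ
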